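import Mathlib

/-!
# Cuts of an integer in base `B`, and sums over cuts

A cut of `x` is a decomposition `x = y + z` with `y, z ≥ 1` where `z` is divisible by a power of `B`
which is large compared with the size of `y`. We sum a bounded function over the cuts, with weights
which vary slowly.
-/

namespace Pool.Agent.H78.MidCoef

open Filter Topology

/-- The weight of a cut `x = y + z`, as a function of `l = log_B y` and `v = v_B z`. -/
noncomputable def g (l v : ℕ) : ℝ := max 0 (min 1 ((v : ℝ) / l - 2))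

theorem g_nonneg (l v : ℕ) : 0 ≤ g l v := le_max_left _ _

theorem g_le_one (l v : ℕ) : g l v ≤ 1 := max_le zero_le_one (min_le_left _ _)

theorem g_ne_zero {l v : ℕ} (h : g l v ≠ 0) : 1 ≤ l ∧ 2 * l < v := by
  have h1 : 0 < g l v := lt_of_le_of_ne (g_nonneg l v) (Ne.symm h)
  unfold g at h1
  rw [lt_max_iff] at h1
  have h2 : 0 < (v : ℝ) / l - 2 := by
    rcases h1 with h1 | h1
    · exact absurd h1 (lt_irrefl _)
    · exact (lt_min_iff.1 h1).2
  rcases Nat.eq_zero_or_pos l with h3 | h3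
  · subst h3
    simp at h2
    linarith
  · refine ⟨h3, ?_⟩
    have h4 : (0 : ℝ) < l := by exact_mod_cast h3
    have h5 : 2 < (v : ℝ) / l := by linarith
    rw [lt_div_iff₀ h4] at h5
    exact_mod_cast h5

theorem g_eq_one {l v : ℕ} (hl : 1 ≤ l) (hv : 3 * l ≤ v) : g l v = 1 := by
  have h4 : (0 : ℝ) < l := by exact_mod_cast hl
  have h5 : (3 : ℝ) ≤ (v : ℝ) / l := by
    rw [le_div_iff₀ h4]
    exact_mod_cast hv
  unfold g
  rw [min_eq_left (by linarith), max_eq_right zero_le_one]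

theorem clamp_sub_le (x y : ℝ) : |max 0 (min 1 x) - max 0 (min 1 y)| ≤ |x - y| := by
  rcases le_total x y with h | h
  · rw [abs_of_nonpos (sub_nonpos.2 h), abs_of_nonpos]
    · rcases le_total 1 x with h1 | h1 <;> rcases le_total 1 y with h2 | h2 <;>
        rcases le_total 0 x with h3 | h3 <;> rcases le_total 0 y with h4 | h4 <;>
        simp [h1, h2, h3, h4] <;> linarith
    · exact sub_nonpos.2 (max_le_max le_rfl (min_le_min le_rfl h))
  · rw [abs_of_nonneg (sub_nonneg.2 h), abs_of_nonneg]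
    · rcases le_total 1 x with h1 | h1 <;> rcases le_total 1 y with h2 | h2 <;>
        rcases le_total 0 x with h3 | h3 <;> rcases le_total 0 y with h4 | h4 <;>
        simp [h1, h2, h3, h4] <;> linarith
    · exact sub_nonneg.2 (max_le_max le_rfl (min_le_min le_rfl h))

theorem g_sub_le {l l' v v' k : ℕ} (hk : 3 ≤ k) (h1 : k ≤ l) (h2 : l ≤ k + 1) (h3 : k ≤ l')
    (h4 : l' ≤ k + 1) (h5 : v ≤ v' + 1) (h6 : v' ≤ v + 1) : |g l v - g l' v'| ≤ 5 / k := by
  have hk' : (3 : ℝ) ≤ k := by exact_mod_cast hk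
  have h1' : (k : ℝ) ≤ l := by exact_mod_cast h1
  have h2' : (l : ℝ) ≤ k + 1 := by exact_mod_cast h2
  have h3' : (k : ℝ) ≤ l' := by exact_mod_cast h3
  have h4' : (l' : ℝ) ≤ k + 1 := by exact_mod_cast h4
  have h5' : (v : ℝ) ≤ v' + 1 := by exact_mod_cast h5
  have h6' : (v' : ℝ) ≤ v + 1 := by exact_mod_cast h6
  have hl : (0 : ℝ) < l := by linarith
  have hl' : (0 : ℝ) < l' := by linarith
  rcases Nat.lt_or_ge (4 * l) v with h | h
  · have e1 : g l v = 1 := g_eq_one (by omega) (by omega)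
    have e2 : g l' v' = 1 := g_eq_one (by omega) (by omega)
    rw [e1, e2, sub_self, abs_zero]
    positivity
  · have h' : (v : ℝ) ≤ 4 * l := by exact_mod_cast h
    have hv0 : (0 : ℝ) ≤ v := Nat.cast_nonneg v
    refine (clamp_sub_le _ _).trans ?_
    have e : (v : ℝ) / l - 2 - ((v' : ℝ) / l' - 2) =
        (v * (l' - l) + l * (v - v')) / (l * l') := by
      field_simp
      ring
    rw [e, abs_div, abs_of_pos (mul_pos hl hl'), div_le_iff₀ (mul_pos hl hl')]
    have e3 : |(v : ℝ) * (l' - l) + l * (v - v')| ≤ 5 * l := by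
      have a1 : |(v : ℝ) * (l' - l)| ≤ v := by
        rw [abs_mul, abs_of_nonneg hv0]
        have : |(l' : ℝ) - l| ≤ 1 := by
          rw [abs_le]; constructor <;> linarith
        nlinarith
      have a2 : |(l : ℝ) * (v - v')| ≤ l := by
        rw [abs_mul, abs_of_pos hl]
        have : |(v : ℝ) - v'| ≤ 1 := by
          rw [abs_le]; constructor <;> linarith
        nlinarith
      refine (abs_add_le _ _).trans ?_
      linarith
    refine e3.trans ?_
    rw [div_mul_eq_mul_div, le_div_iff₀ (by linarith)]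
    nlinarith

/-- Sum of reciprocals of a rapidly growing sequence. -/
theorem sum_inv_le (l : ℕ → ℕ) (S : Finset ℕ) : ∀ K : ℕ, 1 ≤ K → (∀ y ∈ S, K ≤ l y) →
    (∀ y ∈ S, ∀ y' ∈ S, y < y' → 2 * l y ≤ l y') → ∑ y ∈ S, (1 : ℝ) / l y ≤ 2 / K := by
  induction S using Finset.induction_on_min with
  | empty =>
    intro K hK _ _
    simp only [Finset.sum_empty]
    positivity
  | insert a S ha ih =>
    intro K hK h1 h2
    rw [Finset.sum_insert (fun h => lt_irrefl a (ha a h))]
    have h3 : K ≤ l a := h1 a (Finset.mem_insert_self _ _)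
    have h4 := ih (2 * l a) (by omega)
      (fun y hy => h2 a (Finset.mem_insert_self _ _) y (Finset.mem_insert_of_mem hy) (ha y hy))
      (fun y hy y' hy' => h2 y (Finset.mem_insert_of_mem hy) y' (Finset.mem_insert_of_mem hy'))
    have h5 : (0 : ℝ) < l a := by
      have : 0 < l a := by omega
      exact_mod_cast this
    have h6 : (0 : ℝ) < K := by exact_mod_cast hK
    have h7 : (K : ℝ) ≤ l a := by exact_mod_cast h3
    calc (1 : ℝ) / l a + ∑ y ∈ S, (1 : ℝ) / l y ≤ 1 / l a + 2 / ((2 * l a : ℕ) : ℝ) := by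
          linarith
      _ = 2 / l a := by
          push_cast
          field_simp
          norm_num
      _ ≤ 2 / K := by
          apply div_le_div_of_nonneg_left (by norm_num) h6 h7

section Base

variable {B : ℕ}

theorem pow_dvd_iff (hB : 2 ≤ B) {z : ℕ} (hz : 0 < z) {k : ℕ} :
    B ^ k ∣ z ↔ k ≤ multiplicity B z :=
  (Nat.finiteMultiplicity_iff.2 ⟨by omega, hz⟩).pow_dvd_iff_le_multiplicity

theorem le_log (hB : 2 ≤ B) {y k : ℕ} (h : B ^ k ≤ y) : k ≤ Nat.log B y :=
  Nat.le_log_of_pow_le (by omega) h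

theorem log_mul_le (hB : 2 ≤ B) {b y : ℕ} (hb : b ≤ B) : Nat.log B (b * y) ≤ Nat.log B y + 1 := by
  rcases Nat.eq_zero_or_pos y with h | h
  · subst h
    simp
  · rw [← Nat.log_mul_base (by omega) h.ne', mul_comm b y]
    exact Nat.log_mono_right (Nat.mul_le_mul_left y hb)

theorem le_log_mul {b y : ℕ} (hb : 1 ≤ b) : Nat.log B y ≤ Nat.log B (b * y) :=
  Nat.log_mono_right (Nat.le_mul_of_pos_left y hb)

theorem mult_mul_le (hB : 2 ≤ B) {b z : ℕ} (hb : b ∣ B) (hb0 : 0 < b) (hz : 0 < z) :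
    multiplicity B (b * z) ≤ multiplicity B z + 1 := by
  by_contra hcon
  push Not at hcon
  obtain ⟨c, hc⟩ := hb
  have h1 : B ^ (multiplicity B z + 2) ∣ b * z :=
    (pow_dvd_iff hB (Nat.mul_pos hb0 hz)).2 (by omega)
  have h2 : B ^ (multiplicity B z + 1) ∣ z := by
    have h3 : b * B ^ (multiplicity B z + 1) ∣ b * z := by
      refine Dvd.dvd.trans ?_ h1
      rw [pow_succ B (multiplicity B z + 1), mul_comm (B ^ (multiplicity B z + 1)) B]
      exact Nat.mul_dvd_mul ⟨c, hc⟩ dvd_rfl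
    exact Nat.dvd_of_mul_dvd_mul_left hb0 h3
  have h4 := (pow_dvd_iff hB hz).1 h2
  omega

theorem le_mult_mul (hB : 2 ≤ B) {b z : ℕ} (hb0 : 0 < b) (hz : 0 < z) :
    multiplicity B z ≤ multiplicity B (b * z) := by
  rw [← pow_dvd_iff hB (Nat.mul_pos hb0 hz)]
  exact Dvd.dvd.mul_left (pow_multiplicity_dvd B z) b

theorem mult_add_eq (hB : 2 ≤ B) {z w K : ℕ} (hz : 0 < z) (hK : multiplicity B z < K)
    (hw : B ^ K ∣ w) : multiplicity B (z + w) = multiplicity B z := by
  apply le_antisymm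
  · by_contra hcon
    push Not at hcon
    have h1 : B ^ (multiplicity B z + 1) ∣ z + w := (pow_dvd_iff hB (by omega)).2 hcon
    have h2 : B ^ (multiplicity B z + 1) ∣ w := (pow_dvd_pow B hK).trans hw
    have h3 := (Nat.dvd_add_left h2).1 h1
    have h4 := (pow_dvd_iff hB hz).1 h3
    omega
  · rw [← pow_dvd_iff hB (by omega)]
    exact Dvd.dvd.add (pow_multiplicity_dvd B z) ((pow_dvd_pow B hK.le).trans hw)

/-- The cuts of `x` (with slack) of size at least `K`. -/
noncomputable def cuts (B x K : ℕ) : Finset ℕ :=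
  (Finset.Ico 1 x).filter fun y => K ≤ Nat.log B y ∧ 2 * Nat.log B y ≤ multiplicity B (x - y)

theorem cuts_growth (hB : 2 ≤ B) {x K : ℕ} (hK : 1 ≤ K) {y y' : ℕ} (hy : y ∈ cuts B x K)
    (hy' : y' ∈ cuts B x K) (hlt : y < y') : 2 * Nat.log B y ≤ Nat.log B y' := by
  simp only [cuts, Finset.mem_filter, Finset.mem_Ico] at hy hy'
  obtain ⟨⟨h1, h2⟩, h3, h4⟩ := hy
  obtain ⟨⟨h1', h2'⟩, h3', h4'⟩ := hy'
  have hd : ∀ j, j ≤ multiplicity B (x - y) → j ≤ multiplicity B (x - y') → B ^ j ≤ y' := by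
    intro j hj hj'
    have e1 := (pow_dvd_iff hB (by omega : 0 < x - y)).2 hj
    have e2 := (pow_dvd_iff hB (by omega : 0 < x - y')).2 hj'
    have e3 : B ^ j ∣ y' - y := by
      have : y' - y = (x - y) - (x - y') := by omega
      rw [this]
      exact Nat.dvd_sub e1 e2
    exact (Nat.le_of_dvd (by omega) e3).trans (Nat.sub_le _ _)
  rcases Nat.le_total (multiplicity B (x - y')) (multiplicity B (x - y)) with h | h
  · have := le_log hB (hd _ h le_rfl)
    omega
  · have := le_log hB (hd _ le_rfl h)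
    omega

theorem sum_cuts_le (hB : 2 ≤ B) {x K : ℕ} (hK : 1 ≤ K) :
    ∑ y ∈ cuts B x K, (1 : ℝ) / Nat.log B y ≤ 2 / K :=
  sum_inv_le (fun y => Nat.log B y) _ K hK
    (fun y hy => by
      simp only [cuts, Finset.mem_filter] at hy
      exact hy.2.1)
    fun y hy y' hy' hlt => cuts_growth hB hK hy hy' hlt

/-- If `B ^ K` divides `x`, then every cut of `x` is large. -/
theorem large_of_cut (hB : 2 ≤ B) {x y K : ℕ} (hx : B ^ K ∣ x) (hy : 0 < y) (hyx : y < x)
    (h : 2 * Nat.log B y ≤ multiplicity B (x - y)) (h' : 0 < multiplicity B (x - y)) :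
    K ≤ Nat.log B y := by
  have hd : ∀ j, j ≤ multiplicity B (x - y) → j ≤ K → j ≤ Nat.log B y := by
    intro j hj hjK
    have e1 := (pow_dvd_iff hB (by omega : 0 < x - y)).2 hj
    have e2 : B ^ j ∣ x := (pow_dvd_pow B hjK).trans hx
    have e3 : B ^ j ∣ y := by
      have : y = x - (x - y) := by omega
      rw [this]
      exact Nat.dvd_sub e2 e1
    exact le_log hB (Nat.le_of_dvd hy e3)
  rcases Nat.le_total K (multiplicity B (x - y)) with h1 | h1
  · exact hd K h1 le_rfl
  · have := hd _ le_rfl h1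
    omega

end Base

end Pool.Agent.H78.MidCoef
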