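import Mathlib

/-!
# Linear combinations of an ultrafilter on the positive integers
-/

namespace Pool.Agent.H78.MidCoef

/-- The sum `U ⊕ V` of two ultrafilters on the positive integers:
`A ∈ U ⊕ V` iff `{m | {n | m + n ∈ A} ∈ V} ∈ U`. -/
def oplus (U V : Ultrafilter ℕ+) : Ultrafilter ℕ+ :=
  U.bind fun m => V.map fun n => m + n

/-- The ultrafilter `aU`, the image of `U` under `n ↦ a * n`. -/
def smul (a : ℕ+) (U : Ultrafilter ℕ+) : Ultrafilter ℕ+ :=
  U.map fun n => a * n

end Pool.Agent.H78.MidCoef
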