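import Pool.Agent.H78.MidCoef.Cuts

/-!
# The invariant: a weighted sum over the cuts of an integer
-/

namespace Pool.Agent.H78.MidCoef

open Filter Topology

/-- Contribution of the cut `y + z`. -/
noncomputable def term (B : ℕ) (χ : ℕ → ℝ) (κ : ℝ) (F : UnitAddCircle → ℝ) (y z : ℕ) : ℝ :=
  g (Nat.log B y) (multiplicity B z) * F ((χ z - κ * Real.log y : ℝ) : UnitAddCircle)

/-- The sum over all cuts of `x`. -/
noncomputable def Psi (B : ℕ) (χ : ℕ → ℝ) (κ : ℝ) (F : UnitAddCircle → ℝ) (x : ℕ) : ℝ :=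
  ∑ y ∈ Finset.Ico 1 x, term B χ κ F y (x - y)

section

variable {B : ℕ} {χ : ℕ → ℝ} {κ : ℝ} {F : UnitAddCircle → ℝ}

theorem circle_norm_le (x : ℝ) : ‖(x : UnitAddCircle)‖ ≤ |x| := by
  rw [← Real.norm_eq_abs]
  exact QuotientAddGroup.norm_mk_le_norm

/-- Difference of two contributions at comparable positions. -/
theorem term_sub_le (hF1 : ∀ s, |F s| ≤ 1) (hF2 : ∀ s s', |F s - F s'| ≤ ‖s - s'‖)
    {y y' z z' k : ℕ} (hk : 3 ≤ k) (h1 : k ≤ Nat.log B y) (h2 : Nat.log B y ≤ k + 1)
    (h3 : k ≤ Nat.log B y') (h4 : Nat.log B y' ≤ k + 1)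
    (h5 : multiplicity B z ≤ multiplicity B z' + 1)
    (h6 : multiplicity B z' ≤ multiplicity B z + 1) :
    |term B χ κ F y z - term B χ κ F y' z'| ≤ 5 / k +
      ‖((χ z - κ * Real.log y - (χ z' - κ * Real.log y') : ℝ) : UnitAddCircle)‖ := by
  unfold term
  set a := g (Nat.log B y) (multiplicity B z)
  set a' := g (Nat.log B y') (multiplicity B z')
  set s : UnitAddCircle := ((χ z - κ * Real.log y : ℝ) : UnitAddCircle) with hs
  set s' : UnitAddCircle := ((χ z' - κ * Real.log y' : ℝ) : UnitAddCircle) with hs'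
  have e1 : |a - a'| ≤ 5 / k := g_sub_le hk h1 h2 h3 h4 h5 h6
  have e2 : ((χ z - κ * Real.log y - (χ z' - κ * Real.log y') : ℝ) : UnitAddCircle) = s - s' := by
    rw [hs, hs']
    rfl
  rw [e2]
  have e3 : a * F s - a' * F s' = (a - a') * F s + a' * (F s - F s') := by ring
  rw [e3]
  have e4 : |a'| ≤ 1 := by
    rw [abs_of_nonneg (g_nonneg _ _)]
    exact g_le_one _ _
  calc |(a - a') * F s + a' * (F s - F s')| ≤ |(a - a') * F s| + |a' * (F s - F s')| :=
        abs_add_le _ _
    _ = |a - a'| * |F s| + |a'| * |F s - F s'| := by rw [abs_mul, abs_mul]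
    _ ≤ |a - a'| * 1 + 1 * |F s - F s'| := by
        gcongr
        exact hF1 s
    _ ≤ 5 / k + ‖s - s'‖ := by
        have := hF2 s s'
        linarith

theorem term_eq_zero {y z : ℕ} (h : ¬ (1 ≤ Nat.log B y ∧ 2 * Nat.log B y < multiplicity B z)) :
    term B χ κ F y z = 0 := by
  unfold term
  have : g (Nat.log B y) (multiplicity B z) = 0 := by
    by_contra hcon
    exact h (g_ne_zero hcon)
  rw [this, zero_mul]

/-- Splitting the sum over the cuts of `x + w`. -/
theorem Psi_add {x w : ℕ} (hx : 1 ≤ x) (hw : 1 ≤ w) :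
    Psi B χ κ F (x + w) = (∑ y ∈ Finset.Ico 1 x, term B χ κ F y (x - y + w)) +
      term B χ κ F x w + ∑ y ∈ Finset.Ico 1 w, term B χ κ F (x + y) (w - y) := by
  unfold Psi
  rw [← Finset.sum_Ico_consecutive _ hx (by omega : x ≤ x + w), add_assoc]
  congr 1
  · apply Finset.sum_congr rfl
    intro y hy
    rw [Finset.mem_Ico] at hy
    rw [show x + w - y = x - y + w by omega]
  · rw [Finset.sum_eq_sum_Ico_succ_bot (by omega : x < x + w)]
    congr 1
    · rw [show x + w - x = w by omega]
    · have := Finset.sum_Ico_add (fun y => term B χ κ F y (x + w - y)) 1 w x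
      rw [show (1 + x) = x + 1 by ring, show w + x = x + w by ring] at this
      rw [← this]
      apply Finset.sum_congr rfl
      intro y hy
      rw [show x + w - (x + y) = w - y by omega]

theorem concat (hB : 2 ≤ B) (hχ : ∀ z, 0 < z → ∃ D, 0 < D ∧ ∀ w, D ∣ w → χ (z + w) = χ z)
    (hF1 : ∀ s, |F s| ≤ 1) (hF2 : ∀ s s', |F s - F s'| ≤ ‖s - s'‖) {x : ℕ} (hx : B ≤ x)
    {ε : ℝ} (hε : 0 < ε) : ∃ D, 0 < D ∧ ∀ w, 0 < w → D ∣ w →
      |Psi B χ κ F (x + w) - (Psi B χ κ F x +
        F ((χ w - κ * Real.log x : ℝ) : UnitAddCircle) + Psi B χ κ F w)| ≤ ε := by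
  classical
  have hx1 : 1 ≤ x := by omega
  choose! D' hD'pos hD' using hχ
  obtain ⟨K0, hK0⟩ := exists_nat_ge ((5 + |κ| * x) * 2 / ε)
  set K : ℕ := max (max 3 (3 * Nat.log B x)) (max x K0) with hK
  have hK3 : 3 ≤ K := (le_max_left _ _).trans (le_max_left _ _)
  have hKl : 3 * Nat.log B x ≤ K := (le_max_right _ _).trans (le_max_left _ _)
  have hKx : x ≤ K := (le_max_left _ _).trans (le_max_right _ _)
  have hKK : K0 ≤ K := (le_max_right _ _).trans (le_max_right _ _)
  have hKε : (5 + |κ| * x) * (2 / K) ≤ ε := by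
    have h1 : (5 + |κ| * x) * 2 / ε ≤ K := hK0.trans (by exact_mod_cast hKK)
    have h2 : (0 : ℝ) < K := by
      have : 0 < K := by omega
      exact_mod_cast this
    rw [div_le_iff₀ hε] at h1
    rw [← mul_div_assoc, div_le_iff₀ h2]
    linarith
  have hxK : x < B ^ K := hKx.trans_lt (Nat.lt_pow_self (by omega))
  refine ⟨B ^ K * ∏ z ∈ Finset.Ico 1 x, D' z, ?_, ?_⟩
  · apply Nat.mul_pos (by positivity)
    apply Finset.prod_pos
    intro z hz
    rw [Finset.mem_Ico] at hz
    exact hD'pos z (by omega)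
  · intro w hw hDw
    have hBw : B ^ K ∣ w := (Dvd.intro _ rfl).trans hDw
    have hDw' : ∀ z, 1 ≤ z → z < x → χ (z + w) = χ z := by
      intro z hz hzx
      apply hD' z hz
      exact ((Finset.dvd_prod_of_mem D' (Finset.mem_Ico.2 ⟨hz, hzx⟩)).trans
        (Dvd.intro_left _ rfl)).trans hDw
    rw [Psi_add hx1 hw]
    -- the first part does not change
    have part1 : ∑ y ∈ Finset.Ico 1 x, term B χ κ F y (x - y + w) = Psi B χ κ F x := by
      unfold Psi
      apply Finset.sum_congr rfl
      intro y hy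
      rw [Finset.mem_Ico] at hy
      have h1 : multiplicity B (x - y) < K := by
        by_contra hcon
        push Not at hcon
        have h2 := (pow_dvd_iff hB (by omega : 0 < x - y)).2 hcon
        have := Nat.le_of_dvd (by omega) h2
        omega
      unfold term
      rw [mult_add_eq hB (by omega) h1 hBw, hDw' (x - y) (by omega) (by omega)]
    have part2 : term B χ κ F x w = F ((χ w - κ * Real.log x : ℝ) : UnitAddCircle) := by
      unfold term
      rw [g_eq_one, one_mul]
      · exact le_log hB (by simpa using hx)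
      · exact hKl.trans ((pow_dvd_iff hB hw).1 hBw)
    -- the third part changes little
    have part3 : |(∑ y ∈ Finset.Ico 1 w, term B χ κ F (x + y) (w - y)) - Psi B χ κ F w| ≤ ε := by
      unfold Psi
      rw [← Finset.sum_sub_distrib]
      have hsub : cuts B w K ⊆ Finset.Ico 1 w := Finset.filter_subset _ _
      have hz : ∀ y ∈ Finset.Ico 1 w, y ∉ cuts B w K →
          term B χ κ F (x + y) (w - y) - term B χ κ F y (w - y) = 0 := by
        intro y hy hyc
        rw [Finset.mem_Ico] at hy
        have hlog : Nat.log B y ≤ Nat.log B (x + y) := Nat.log_mono_right (by omega)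
        have key : ¬ (2 * Nat.log B y < multiplicity B (w - y)) := by
          intro hcon
          apply hyc
          simp only [cuts, Finset.mem_filter, Finset.mem_Ico]
          exact ⟨hy, large_of_cut hB hBw (by omega) (by omega) hcon.le (by omega), hcon.le⟩
        rw [term_eq_zero, term_eq_zero, sub_zero]
        · intro hcon
          exact key hcon.2
        · intro hcon
          exact key (by omega)
      rw [← Finset.sum_subset hsub hz]
      refine (Finset.abs_sum_le_sum_abs _ _).trans ?_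
      have hb : ∀ y ∈ cuts B w K, |term B χ κ F (x + y) (w - y) - term B χ κ F y (w - y)| ≤
          (5 + |κ| * x) * (1 / Nat.log B y) := by
        intro y hy
        simp only [cuts, Finset.mem_filter, Finset.mem_Ico] at hy
        obtain ⟨⟨hy1, hyw⟩, hyK, hyv⟩ := hy
        have hy0 : (0 : ℝ) < y := by exact_mod_cast hy1
        have hBy : B ^ Nat.log B y ≤ y := Nat.pow_log_le_self B (by omega)
        have hly : Nat.log B y < y := (Nat.lt_pow_self (by omega)).trans_le hBy
        have hxy : x ≤ y := by omega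
        have h1 : Nat.log B y ≤ Nat.log B (x + y) := Nat.log_mono_right (by omega)
        have h2 : Nat.log B (x + y) ≤ Nat.log B y + 1 := by
          refine le_trans (Nat.log_mono_right ?_) (log_mul_le hB (le_refl B))
          nlinarith
        have h3 := term_sub_le (χ := χ) (κ := κ) hF1 hF2 (B := B) (y := x + y) (y' := y)
          (z := w - y) (z' := w - y) (by omega : 3 ≤ Nat.log B y) h1 h2 le_rfl (by omega)
          (by omega) (by omega)
        refine h3.trans ?_
        have h4 : ‖((χ (w - y) - κ * Real.log ((x + y : ℕ) : ℝ) -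
            (χ (w - y) - κ * Real.log y) : ℝ) : UnitAddCircle)‖ ≤ |κ| * (x / y) := by
          refine (circle_norm_le _).trans ?_
          have h5 : (χ (w - y) - κ * Real.log ((x + y : ℕ) : ℝ) -
            (χ (w - y) - κ * Real.log y) : ℝ) = - (κ * (Real.log ((x + y : ℕ) : ℝ) -
              Real.log y)) := by ring
          rw [h5, abs_neg, abs_mul]
          apply mul_le_mul_of_nonneg_left _ (abs_nonneg _)
          have h6 : Real.log ((x + y : ℕ) : ℝ) - Real.log y = Real.log (1 + x / y) := by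
            rw [← Real.log_div (by positivity) hy0.ne']
            congr 1
            push_cast
            field_simp
            ring
          rw [h6, abs_of_nonneg (Real.log_nonneg (by
            have : (0 : ℝ) ≤ x / y := by positivity
            linarith))]
          have := Real.log_le_sub_one_of_pos (x := 1 + (x : ℝ) / y) (by positivity)
          linarith
        have h7 : (x : ℝ) / y ≤ x * (1 / Nat.log B y) := by
          rw [div_eq_mul_one_div]
          apply mul_le_mul_of_nonneg_left _ (Nat.cast_nonneg x)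
          apply one_div_le_one_div_of_le
          · have : 0 < Nat.log B y := by omega
            exact_mod_cast this
          · exact_mod_cast hly.le
        calc 5 / ((Nat.log B y : ℕ) : ℝ) + _ ≤ 5 * (1 / Nat.log B y) + |κ| * (x / y) := by
              have : (5 : ℝ) / (Nat.log B y : ℕ) = 5 * (1 / Nat.log B y) := by ring
              rw [this]
              gcongr
          _ ≤ 5 * (1 / Nat.log B y) + |κ| * (x * (1 / Nat.log B y)) := by gcongr
          _ = _ := by ring
      refine (Finset.sum_le_sum hb).trans ?_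
      rw [← Finset.mul_sum]
      refine le_trans ?_ hKε
      apply mul_le_mul_of_nonneg_left (sum_cuts_le hB (by omega)) (by positivity)
    rw [part1, part2]
    have : Psi B χ κ F x + F ((χ w - κ * Real.log x : ℝ) : UnitAddCircle) +
        (∑ y ∈ Finset.Ico 1 w, term B χ κ F (x + y) (w - y)) -
        (Psi B χ κ F x + F ((χ w - κ * Real.log x : ℝ) : UnitAddCircle) + Psi B χ κ F w) =
        (∑ y ∈ Finset.Ico 1 w, term B χ κ F (x + y) (w - y)) - Psi B χ κ F w := by ring
    rw [this]
    exact part3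

/-- Sum over the cuts of `b * x`, where `b` divides the base. -/
theorem Psi_mul (hB : 2 ≤ B) {b x : ℕ} (hb : b ∣ B) (hb0 : 0 < b) :
    Psi B χ κ F (b * x) = ∑ y ∈ Finset.Ico 1 x, term B χ κ F (b * y) (b * (x - y)) := by
  classical
  unfold Psi
  have h1 : ∑ y ∈ Finset.Ico 1 x, term B χ κ F (b * y) (b * (x - y)) =
      ∑ y ∈ (Finset.Ico 1 x).image (fun y => b * y), term B χ κ F y (b * x - y) := by
    rw [Finset.sum_image]
    · apply Finset.sum_congr rfl
      intro y hy
      rw [Nat.mul_sub]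
    · intro y _ y' _ h
      exact Nat.eq_of_mul_eq_mul_left hb0 h
  rw [h1]
  symm
  apply Finset.sum_subset
  · intro y hy
    rw [Finset.mem_image] at hy
    obtain ⟨y', hy', rfl⟩ := hy
    rw [Finset.mem_Ico] at hy' ⊢
    constructor
    · exact Nat.mul_pos hb0 (by omega)
    · exact Nat.mul_lt_mul_of_pos_left hy'.2 hb0
  · intro y hy hyn
    rw [Finset.mem_Ico] at hy
    apply term_eq_zero
    rintro ⟨h2, h3⟩
    apply hyn
    have h4 : B ∣ b * x - y := by
      have := (pow_dvd_iff hB (by omega : 0 < b * x - y)).2 (by omega : 1 ≤ _)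
      simpa using this
    have h5 : b ∣ y := by
      have h6 : b ∣ b * x - y := hb.trans h4
      have h7 : y = b * x - (b * x - y) := by omega
      rw [h7]
      exact Nat.dvd_sub (Dvd.intro _ rfl) h6
    obtain ⟨y', rfl⟩ := h5
    rw [Finset.mem_image]
    refine ⟨y', ?_, rfl⟩
    rw [Finset.mem_Ico]
    constructor
    · by_contra hcon
      have : y' = 0 := by omega
      subst this
      omega
    · exact Nat.lt_of_mul_lt_mul_left hy.2

theorem scale (hB : 2 ≤ B) {b b' : ℕ} (hb : b ∣ B) (hb' : b' ∣ B) (hb0 : 0 < b) (hb0' : 0 < b')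
    (hF1 : ∀ s, |F s| ≤ 1) (hF2 : ∀ s s', |F s - F s'| ≤ ‖s - s'‖)
    (hχ : ∀ z, 0 < z → ((χ (b * z) - χ (b' * z) - κ * (Real.log b - Real.log b') : ℝ) :
      UnitAddCircle) = 0) {ε : ℝ} (hε : 0 < ε) :
    ∃ D, 0 < D ∧ ∀ x, D ∣ x → |Psi B χ κ F (b * x) - Psi B χ κ F (b' * x)| ≤ ε := by
  classical
  obtain ⟨K0, hK0⟩ := exists_nat_ge (10 / ε)
  set K : ℕ := max 3 K0 with hK
  have hK3 : 3 ≤ K := le_max_left _ _
  have hKK : K0 ≤ K := le_max_right _ _
  have hKε : 5 * (2 / K) ≤ ε := by
    have h1 : 10 / ε ≤ K := hK0.trans (by exact_mod_cast hKK)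
    have h2 : (0 : ℝ) < K := by
      have : 0 < K := by omega
      exact_mod_cast this
    rw [div_le_iff₀ hε] at h1
    rw [← mul_div_assoc, div_le_iff₀ h2]
    linarith
  refine ⟨B ^ K, by positivity, ?_⟩
  intro x hBx
  rw [Psi_mul hB hb hb0, Psi_mul hB hb' hb0', ← Finset.sum_sub_distrib]
  have hbB : b ≤ B := Nat.le_of_dvd (by omega) hb
  have hbB' : b' ≤ B := Nat.le_of_dvd (by omega) hb'
  have hsub : cuts B x K ⊆ Finset.Ico 1 x := Finset.filter_subset _ _
  have hz1 : ∀ c, 0 < c → c ∣ B → ∀ y ∈ Finset.Ico 1 x, y ∉ cuts B x K →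
      term B χ κ F (c * y) (c * (x - y)) = 0 := by
    intro c hc0 hc y hy hyc
    rw [Finset.mem_Ico] at hy
    apply term_eq_zero
    rintro ⟨h1, h2⟩
    have h3 : Nat.log B y ≤ Nat.log B (c * y) := le_log_mul hc0
    have h4 := mult_mul_le hB hc hc0 (by omega : 0 < x - y)
    apply hyc
    simp only [cuts, Finset.mem_filter, Finset.mem_Ico]
    exact ⟨hy, large_of_cut hB hBx (by omega) (by omega) (by omega) (by omega), by omega⟩
  have hz : ∀ y ∈ Finset.Ico 1 x, y ∉ cuts B x K →
      term B χ κ F (b * y) (b * (x - y)) - term B χ κ F (b' * y) (b' * (x - y)) = 0 := by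
    intro y hy hyc
    rw [hz1 b hb0 hb y hy hyc, hz1 b' hb0' hb' y hy hyc, sub_zero]
  rw [← Finset.sum_subset hsub hz]
  refine (Finset.abs_sum_le_sum_abs _ _).trans ?_
  have hbd : ∀ y ∈ cuts B x K, |term B χ κ F (b * y) (b * (x - y)) -
      term B χ κ F (b' * y) (b' * (x - y))| ≤ 5 * (1 / Nat.log B y) := by
    intro y hy
    simp only [cuts, Finset.mem_filter, Finset.mem_Ico] at hy
    obtain ⟨⟨hy1, hyx⟩, hyK, hyv⟩ := hy
    have h1 := mult_mul_le hB hb hb0 (by omega : 0 < x - y)
    have h2 := mult_mul_le hB hb' hb0' (by omega : 0 < x - y)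
    have h3 := le_mult_mul hB hb0 (by omega : 0 < x - y)
    have h4 := le_mult_mul hB hb0' (by omega : 0 < x - y)
    have h5 := term_sub_le (χ := χ) (κ := κ) hF1 hF2 (B := B) (y := b * y) (y' := b' * y)
          (z := b * (x - y)) (z' := b' * (x - y)) (by omega : 3 ≤ Nat.log B y) (le_log_mul hb0)
          (log_mul_le hB hbB) (le_log_mul hb0') (log_mul_le hB hbB') (by omega) (by omega)
    refine h5.trans ?_
    have hy0 : (0 : ℝ) < y := by exact_mod_cast hy1
    have hbr : (0 : ℝ) < b := by exact_mod_cast hb0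
    have hbr' : (0 : ℝ) < b' := by exact_mod_cast hb0'
    have h6 : χ (b * (x - y)) - κ * Real.log ((b * y : ℕ) : ℝ) -
        (χ (b' * (x - y)) - κ * Real.log ((b' * y : ℕ) : ℝ)) =
        χ (b * (x - y)) - χ (b' * (x - y)) - κ * (Real.log b - Real.log b') := by
      push_cast
      rw [Real.log_mul hbr.ne' hy0.ne', Real.log_mul hbr'.ne' hy0.ne']
      ring
    rw [h6, hχ (x - y) (by omega), norm_zero, add_zero]
    apply le_of_eq
    ring
  refine (Finset.sum_le_sum hbd).trans ?_
  rw [← Finset.mul_sum]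
  refine le_trans ?_ hKε
  exact mul_le_mul_of_nonneg_left (sum_cuts_le hB (by omega)) (by norm_num)

end

end Pool.Agent.H78.MidCoef
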