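import Pool.Agent.H78.MidCoef.Defs
import Pool.Agent.H78.MidCoef.Psi

/-!
# Limits of the invariant along sums of ultrafilters
-/

namespace Pool.Agent.H78.MidCoef

open Filter Topology

theorem mem_oplus {U V : Ultrafilter ℕ+} {A : Set ℕ+} :
    A ∈ oplus U V ↔ {m : ℕ+ | {n : ℕ+ | m + n ∈ A} ∈ V} ∈ U :=
  Iff.rfl

theorem mem_smul {a : ℕ+} {U : Ultrafilter ℕ+} {A : Set ℕ+} :
    A ∈ smul a U ↔ {n : ℕ+ | a * n ∈ A} ∈ U :=
  Iff.rfl

theorem eventually_oplus {U V : Ultrafilter ℕ+} {p : ℕ+ → Prop} :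
    (∀ᶠ x in (oplus U V : Filter ℕ+), p x) ↔
      ∀ᶠ m in (U : Filter ℕ+), ∀ᶠ n in (V : Filter ℕ+), p (m + n) :=
  Iff.rfl

theorem tendsto_oplus {X : Type*} [PseudoMetricSpace X] {f h : ℕ+ → X} {z : X}
    {U V : Ultrafilter ℕ+} (h1 : ∀ᶠ m in (U : Filter ℕ+), Tendsto (fun n => f (m + n)) V (𝓝 (h m)))
    (h2 : Tendsto h U (𝓝 z)) : Tendsto f (oplus U V) (𝓝 z) := by
  rw [Metric.tendsto_nhds] at h2 ⊢
  intro ε hε
  rw [eventually_oplus]
  filter_upwards [h1, h2 (ε / 2) (by linarith)] with m hm hm2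
  rw [Metric.tendsto_nhds] at hm
  filter_upwards [hm (ε / 2) (by linarith)] with n hn
  calc dist (f (m + n)) z ≤ dist (f (m + n)) (h m) + dist (h m) z := dist_triangle _ _ _
    _ < ε := by linarith

theorem exists_limit {X : Type*} [TopologicalSpace X] [CompactSpace X] (f : ℕ+ → X)
    (U : Ultrafilter ℕ+) : ∃ z, Tendsto f U (𝓝 z) :=
  ⟨(U.map f).lim, (U.map f).le_nhds_lim⟩

/-- Every positive integer divides `U`-almost every number. -/
def Divisible (U : Ultrafilter ℕ+) : Prop :=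
  ∀ D : ℕ, 0 < D → ∀ᶠ n : ℕ+ in (U : Filter ℕ+), D ∣ n

section

variable {B : ℕ} {χ : ℕ → ℝ} {κ : ℝ} {F : UnitAddCircle → ℝ} {U : Ultrafilter ℕ+}

theorem continuous_of_lipschitz (hF2 : ∀ s s', |F s - F s'| ≤ ‖s - s'‖) : Continuous F := by
  rw [Metric.continuous_iff]
  intro s ε hε
  refine ⟨ε, hε, fun s' hs' => ?_⟩
  rw [Real.dist_eq]
  rw [dist_eq_norm] at hs'
  exact (hF2 s' s).trans_lt hs'

theorem continuous_coe_circle : Continuous (fun r : ℝ => (r : UnitAddCircle)) :=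
  AddCircle.continuous_mk' _

theorem tendsto_of_concat (hU : Divisible U) (hB : 2 ≤ B)
    (hχ : ∀ z, 0 < z → ∃ D, 0 < D ∧ ∀ w, D ∣ w → χ (z + w) = χ z)
    (hχm : ∀ c z, 0 < c → 0 < z → χ (c * z) = χ c + χ z)
    (hF1 : ∀ s, |F s| ≤ 1) (hF2 : ∀ s s', |F s - F s'| ≤ ‖s - s'‖) {x : ℕ} (hx : B ≤ x)
    (c : ℕ+) {χU Ac : UnitAddCircle}
    (hχU : Tendsto (fun n : ℕ+ => ((χ n : ℝ) : UnitAddCircle)) U (𝓝 χU))
    (hAc : Tendsto (fun n : ℕ+ => ((Psi B χ κ F (c * n : ℕ) : ℝ) : UnitAddCircle)) U (𝓝 Ac)) :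
    Tendsto (fun n : ℕ+ => ((Psi B χ κ F (x + c * n : ℕ) : ℝ) : UnitAddCircle)) U
      (𝓝 (((Psi B χ κ F x : ℝ) : UnitAddCircle) +
        ((F (χU + ((χ c : ℝ) : UnitAddCircle) - ((κ * Real.log x : ℝ) : UnitAddCircle)) : ℝ) :
          UnitAddCircle) + Ac)) := by
  have herr : Tendsto (fun n : ℕ+ => Psi B χ κ F (x + c * n : ℕ) - (Psi B χ κ F x +
      F ((χ (c * n : ℕ) - κ * Real.log x : ℝ) : UnitAddCircle) + Psi B χ κ F (c * n : ℕ)))
      U (𝓝 0) := by
    rw [Metric.tendsto_nhds]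
    intro ε hε
    obtain ⟨D, hD, hDw⟩ := concat (κ := κ) hB hχ hF1 hF2 hx (half_pos hε)
    filter_upwards [hU D hD] with n hn
    rw [dist_zero_right, Real.norm_eq_abs]
    have := hDw (c * n) (Nat.mul_pos c.pos n.pos) (Dvd.dvd.mul_left hn _)
    linarith
  have h1 : Tendsto (fun n : ℕ+ => ((χ (c * n : ℕ) - κ * Real.log x : ℝ) : UnitAddCircle)) U
      (𝓝 (χU + ((χ c : ℝ) : UnitAddCircle) - ((κ * Real.log x : ℝ) : UnitAddCircle))) := by
    have h2 : (fun n : ℕ+ => ((χ (c * n : ℕ) - κ * Real.log x : ℝ) : UnitAddCircle)) =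
        fun n : ℕ+ => ((χ n : ℝ) : UnitAddCircle) + ((χ c : ℝ) : UnitAddCircle) -
          ((κ * Real.log x : ℝ) : UnitAddCircle) := by
      ext n
      rw [hχm c n c.pos n.pos]
      simp only [AddCircle.coe_add, AddCircle.coe_sub]
      abel
    rw [h2]
    exact (hχU.add tendsto_const_nhds).sub tendsto_const_nhds
  have h3 := (continuous_coe_circle.tendsto _).comp
    (((continuous_of_lipschitz hF2).tendsto _).comp h1)
  have h4 := (continuous_coe_circle.tendsto _).comp herr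
  have h5 := (((tendsto_const_nhds (x := ((Psi B χ κ F x : ℝ) : UnitAddCircle))).add h3).add
    hAc).add h4
  rw [AddCircle.coe_zero, add_zero] at h5
  refine h5.congr fun n => ?_
  simp only [Function.comp, AddCircle.coe_add, AddCircle.coe_sub]
  abel

theorem tendsto_log (hU : Divisible U) (κ : ℝ) (x b : ℕ+) {lU : UnitAddCircle}
    (hlU : Tendsto (fun n : ℕ+ => ((κ * Real.log (n : ℕ) : ℝ) : UnitAddCircle)) U (𝓝 lU)) :
    Tendsto (fun n : ℕ+ => ((κ * Real.log ((x + b * n : ℕ) : ℝ) : ℝ) : UnitAddCircle)) U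
      (𝓝 (((κ * Real.log (b : ℕ) : ℝ) : UnitAddCircle) + lU)) := by
  have h1 : Tendsto (fun n : ℕ+ => (x : ℝ) / (b * n)) U (𝓝 0) := by
    rw [Metric.tendsto_nhds]
    intro ε hε
    obtain ⟨D, hD⟩ := exists_nat_gt ((x : ℝ) / ε)
    have hD0 : 0 < D := by
      have : (0 : ℝ) < (x : ℝ) / ε := by positivity
      exact_mod_cast this.trans hD
    filter_upwards [hU D hD0] with n hn
    have hn' : D ≤ (n : ℕ) := Nat.le_of_dvd n.pos hn
    have hn'' : (D : ℝ) ≤ (n : ℕ) := by exact_mod_cast hn'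
    have hb : (1 : ℝ) ≤ (b : ℕ) := by exact_mod_cast b.pos
    rw [dist_zero_right, Real.norm_eq_abs, abs_of_nonneg (by positivity), div_lt_iff₀ (by positivity)]
    rw [div_lt_iff₀ hε] at hD
    have h4 : (D : ℝ) * ε ≤ ε * (b * n) := by
      have h5 : (D : ℝ) ≤ b * n := by nlinarith
      nlinarith
    linarith
  have h2 : Tendsto (fun n : ℕ+ => κ * Real.log (1 + (x : ℝ) / (b * n))) U (𝓝 (κ * Real.log (1 + 0))) := by
    apply Tendsto.const_mul
    apply Tendsto.log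
    · exact tendsto_const_nhds.add h1
    · norm_num
  rw [add_zero, Real.log_one, mul_zero] at h2
  have h3 := (((continuous_coe_circle.tendsto _).comp h2).add
    (tendsto_const_nhds (x := ((κ * Real.log (b : ℕ) : ℝ) : UnitAddCircle)))).add hlU
  rw [AddCircle.coe_zero, zero_add] at h3
  refine h3.congr fun n => ?_
  have hb : (0 : ℝ) < (b : ℕ) := by exact_mod_cast b.pos
  have hn : (0 : ℝ) < (n : ℕ) := by exact_mod_cast n.pos
  simp only [Function.comp]
  rw [← AddCircle.coe_add, ← AddCircle.coe_add]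
  congr 1
  rw [← mul_add, ← mul_add]
  congr 1
  rw [← Real.log_mul (by positivity) (by positivity), ← Real.log_mul (by positivity) (by positivity)]
  congr 1
  push_cast
  field_simp
  ring

/-- The limit of the invariant along `aU ⊕ bU ⊕ cU`. -/
theorem tendsto_three (hU : Divisible U) (hB : 2 ≤ B)
    (hχ : ∀ z, 0 < z → ∃ D, 0 < D ∧ ∀ w, D ∣ w → χ (z + w) = χ z)
    (hχm : ∀ c z, 0 < c → 0 < z → χ (c * z) = χ c + χ z)
    (hF1 : ∀ s, |F s| ≤ 1) (hF2 : ∀ s s', |F s - F s'| ≤ ‖s - s'‖)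
    (a b c : ℕ+) {χU lU Aa Ab Ac : UnitAddCircle}
    (hχU : Tendsto (fun n : ℕ+ => ((χ n : ℝ) : UnitAddCircle)) U (𝓝 χU))
    (hlU : Tendsto (fun n : ℕ+ => ((κ * Real.log (n : ℕ) : ℝ) : UnitAddCircle)) U (𝓝 lU))
    (hAa : Tendsto (fun n : ℕ+ => ((Psi B χ κ F (a * n : ℕ) : ℝ) : UnitAddCircle)) U (𝓝 Aa))
    (hAb : Tendsto (fun n : ℕ+ => ((Psi B χ κ F (b * n : ℕ) : ℝ) : UnitAddCircle)) U (𝓝 Ab))
    (hAc : Tendsto (fun n : ℕ+ => ((Psi B χ κ F (c * n : ℕ) : ℝ) : UnitAddCircle)) U (𝓝 Ac)) :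
    Tendsto (fun n : ℕ+ => ((Psi B χ κ F (n : ℕ) : ℝ) : UnitAddCircle))
      (oplus (oplus (smul a U) (smul b U)) (smul c U))
      (𝓝 (Aa + ((F (χU + ((χ b : ℝ) : UnitAddCircle) -
          (((κ * Real.log (a : ℕ) : ℝ) : UnitAddCircle) + lU)) : ℝ) : UnitAddCircle) + Ab +
        ((F (χU + ((χ c : ℝ) : UnitAddCircle) -
          (((κ * Real.log (b : ℕ) : ℝ) : UnitAddCircle) + lU)) : ℝ) : UnitAddCircle) + Ac)) := by
  have hFc := continuous_of_lipschitz hF2
  -- the outer sum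
  refine tendsto_oplus (h := fun x : ℕ+ => ((Psi B χ κ F (x : ℕ) : ℝ) : UnitAddCircle) +
        ((F (χU + ((χ c : ℝ) : UnitAddCircle) - ((κ * Real.log (x : ℕ) : ℝ) : UnitAddCircle)) : ℝ) :
          UnitAddCircle) + Ac) ?_ ?_
  · -- eventually `x ≥ B`
    rw [eventually_oplus]
    have h1 : ∀ᶠ l : ℕ+ in (smul a U : Filter ℕ+), B ≤ (l : ℕ) := by
      show ∀ᶠ n : ℕ+ in (U : Filter ℕ+), B ≤ ((a * n : ℕ+) : ℕ)
      filter_upwards [hU B (by omega)] with n hn
      have h2 := Nat.le_of_dvd n.pos hn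
      rw [PNat.mul_coe]
      have h3 := a.pos
      nlinarith
    filter_upwards [h1] with l hl
    refine Eventually.of_forall fun m => ?_
    show Tendsto _ (Filter.map (fun n => c * n) (U : Filter ℕ+)) _
    rw [tendsto_map'_iff]
    have h2 := tendsto_of_concat (κ := κ) hU hB hχ hχm hF1 hF2 (x := l + m)
      (by omega) c hχU hAc
    refine h2.congr fun n => ?_
    simp only [Function.comp, PNat.add_coe, PNat.mul_coe]
  · -- the inner sum
    refine tendsto_oplus (h := fun l : ℕ+ => ((Psi B χ κ F (l : ℕ) : ℝ) : UnitAddCircle) +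
        ((F (χU + ((χ b : ℝ) : UnitAddCircle) - ((κ * Real.log (l : ℕ) : ℝ) : UnitAddCircle)) : ℝ) :
          UnitAddCircle) + Ab + ((F (χU + ((χ c : ℝ) : UnitAddCircle) -
          (((κ * Real.log (b : ℕ) : ℝ) : UnitAddCircle) + lU)) : ℝ) : UnitAddCircle) + Ac) ?_ ?_
    · have h1 : ∀ᶠ l : ℕ+ in (smul a U : Filter ℕ+), B ≤ (l : ℕ) := by
        show ∀ᶠ n : ℕ+ in (U : Filter ℕ+), B ≤ ((a * n : ℕ+) : ℕ)
        filter_upwards [hU B (by omega)] with n hn
        have h2 := Nat.le_of_dvd n.pos hn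
        rw [PNat.mul_coe]
        have h3 := a.pos
        nlinarith
      filter_upwards [h1] with l hl
      show Tendsto _ (Filter.map (fun n => b * n) (U : Filter ℕ+)) _
      rw [tendsto_map'_iff]
      have h2 := tendsto_of_concat (κ := κ) hU hB hχ hχm hF1 hF2 (x := l) hl b hχU hAb
      have h3 := tendsto_log hU κ l b hlU
      have h4 := (continuous_coe_circle.tendsto _).comp ((hFc.tendsto _).comp
        ((tendsto_const_nhds (x := χU + ((χ c : ℝ) : UnitAddCircle))).sub h3))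
      have h5 := (h2.add h4).add (tendsto_const_nhds (x := Ac))
      refine h5.congr fun n => ?_
      simp only [Function.comp, PNat.add_coe, PNat.mul_coe]
    · show Tendsto _ (Filter.map (fun n => a * n) (U : Filter ℕ+)) _
      rw [tendsto_map'_iff]
      have h1 : Tendsto (fun n : ℕ+ => ((κ * Real.log ((a * n : ℕ) : ℝ) : ℝ) : UnitAddCircle)) U
          (𝓝 (((κ * Real.log (a : ℕ) : ℝ) : UnitAddCircle) + lU)) := by
        refine ((tendsto_const_nhds (x := ((κ * Real.log (a : ℕ) : ℝ) : UnitAddCircle))).add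
          hlU).congr fun n => ?_
        rw [← AddCircle.coe_add]
        congr 1
        have ha : (0 : ℝ) < (a : ℕ) := by exact_mod_cast a.pos
        have hn : (0 : ℝ) < (n : ℕ) := by exact_mod_cast n.pos
        push_cast
        rw [← mul_add, Real.log_mul ha.ne' hn.ne']
      have h4 := (continuous_coe_circle.tendsto _).comp ((hFc.tendsto _).comp
        ((tendsto_const_nhds (x := χU + ((χ b : ℝ) : UnitAddCircle))).sub h1))
      have h5 := (((hAa.add h4).add (tendsto_const_nhds (x := Ab))).add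
        (tendsto_const_nhds (x := ((F (χU + ((χ c : ℝ) : UnitAddCircle) -
          (((κ * Real.log (b : ℕ) : ℝ) : UnitAddCircle) + lU)) : ℝ) : UnitAddCircle)))).add
          (tendsto_const_nhds (x := Ac))
      refine h5.congr fun n => ?_
      simp only [Function.comp, PNat.mul_coe]

end

end Pool.Agent.H78.MidCoef
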