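import Pool.Agent.H78.MidCoef.Limits

/-!
# Necessary condition for `aU ⊕ bU ⊕ cU = aU ⊕ b'U ⊕ cU`
-/

namespace Pool.Agent.H78.MidCoef

open Filter Topology

/-- The hypothesis on `U` and the coefficients. -/
def Coincide (U : Ultrafilter ℕ+) (a b b' c : ℕ+) : Prop :=
  oplus (oplus (smul a U) (smul b U)) (smul c U) = oplus (oplus (smul a U) (smul b' U)) (smul c U)

theorem eventually_three {U : Ultrafilter ℕ+} {a b c : ℕ+} {p : ℕ+ → Prop} :
    (∀ᶠ x in (oplus (oplus (smul a U) (smul b U)) (smul c U) : Filter ℕ+), p x) ↔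
      ∀ᶠ l in (U : Filter ℕ+), ∀ᶠ m in (U : Filter ℕ+), ∀ᶠ n in (U : Filter ℕ+),
        p (a * l + b * m + c * n) :=
  Iff.rfl

theorem exists_residue (U : Ultrafilter ℕ+) (M : ℕ) [NeZero M] :
    ∃ r : ZMod M, ∀ᶠ n : ℕ+ in (U : Filter ℕ+), ((n : ℕ) : ZMod M) = r := by
  obtain ⟨r, hr⟩ := (U.map fun n : ℕ+ => ((n : ℕ) : ZMod M)).eq_pure_of_finite
  refine ⟨r, ?_⟩
  have h1 : {x : ZMod M | x = r} ∈ U.map fun n : ℕ+ => ((n : ℕ) : ZMod M) := by
    rw [hr]
    exact Ultrafilter.mem_pure.2 rfl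
  exact h1

theorem residue_three {U : Ultrafilter ℕ+} {M : ℕ} {r : ZMod M}
    (hr : ∀ᶠ n : ℕ+ in (U : Filter ℕ+), ((n : ℕ) : ZMod M) = r) (a b c : ℕ+) :
    ∀ᶠ x : ℕ+ in (oplus (oplus (smul a U) (smul b U)) (smul c U) : Filter ℕ+),
      ((x : ℕ) : ZMod M) = ((a : ℕ) : ZMod M) * r + ((b : ℕ) : ZMod M) * r +
        ((c : ℕ) : ZMod M) * r := by
  rw [eventually_three]
  filter_upwards [hr] with l hl
  filter_upwards [hr] with m hm
  filter_upwards [hr] with n hn
  push_cast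
  rw [hl, hm, hn]

theorem divisible_of_coincide {U : Ultrafilter ℕ+} {a b b' c : ℕ+} (hne : b ≠ b')
    (h : Coincide U a b b' c) : Divisible U := by
  intro D hD
  set d : ℕ := ((b : ℤ) - (b' : ℤ)).natAbs with hd
  have hd0 : 0 < d := by
    rw [hd, Int.natAbs_pos, sub_ne_zero]
    intro hcon
    apply hne
    have : (b : ℕ) = (b' : ℕ) := by exact_mod_cast hcon
    exact PNat.eq this
  have : NeZero (D * d) := ⟨(Nat.mul_pos hD hd0).ne'⟩
  obtain ⟨r, hr⟩ := exists_residue U (D * d)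
  have h1 := residue_three hr a b c
  have h2 := residue_three hr a b' c
  unfold Coincide at h
  rw [h] at h1
  obtain ⟨x, hx1, hx2⟩ := (h1.and h2).exists
  have h3 : (((b : ℕ) : ZMod (D * d)) - ((b' : ℕ) : ZMod (D * d))) * r = 0 := by
    have h4 : ((a : ℕ) : ZMod (D * d)) * r + ((b : ℕ) : ZMod (D * d)) * r +
        ((c : ℕ) : ZMod (D * d)) * r = ((a : ℕ) : ZMod (D * d)) * r +
        ((b' : ℕ) : ZMod (D * d)) * r + ((c : ℕ) : ZMod (D * d)) * r := hx1.symm.trans hx2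
    linear_combination h4
  filter_upwards [hr] with n hn
  rw [← hn] at h3
  have h5 : ((((b : ℤ) - (b' : ℤ)) * (n : ℤ) : ℤ) : ZMod (D * d)) = 0 := by
    push_cast
    exact_mod_cast h3
  rw [ZMod.intCast_zmod_eq_zero_iff_dvd] at h5
  have h6 : D * d ∣ d * n := by
    have := Int.natAbs_dvd_natAbs.2 h5
    rw [Int.natAbs_mul, Int.natAbs_natCast, Int.natAbs_natCast] at this
    exact this
  rw [mul_comm D d] at h6
  exact Nat.dvd_of_mul_dvd_mul_left hd0 h6

/-- The function separating the junctions. -/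
noncomputable def sep (P Q : UnitAddCircle) (s : UnitAddCircle) : ℝ := ‖s - P‖ * ‖s - Q‖

theorem norm_le_half (s : UnitAddCircle) : ‖s‖ ≤ 1 / 2 := by
  have := AddCircle.norm_le_half_period (1 : ℝ) (x := s) one_ne_zero
  simpa using this

theorem sep_nonneg (P Q s : UnitAddCircle) : 0 ≤ sep P Q s :=
  mul_nonneg (norm_nonneg _) (norm_nonneg _)

theorem sep_le (P Q s : UnitAddCircle) : sep P Q s ≤ 1 / 4 := by
  unfold sep
  have h1 := norm_le_half (s - P)
  have h2 := norm_le_half (s - Q)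
  have h3 := norm_nonneg (s - P)
  have h4 := norm_nonneg (s - Q)
  nlinarith

theorem sep_lipschitz (P Q s s' : UnitAddCircle) : |sep P Q s - sep P Q s'| ≤ ‖s - s'‖ := by
  unfold sep
  have e : ‖s - P‖ * ‖s - Q‖ - ‖s' - P‖ * ‖s' - Q‖ =
      (‖s - P‖ - ‖s' - P‖) * ‖s - Q‖ + ‖s' - P‖ * (‖s - Q‖ - ‖s' - Q‖) := by ring
  rw [e]
  have h1 : |‖s - P‖ - ‖s' - P‖| ≤ ‖s - s'‖ := by
    refine (abs_norm_sub_norm_le _ _).trans (le_of_eq ?_)
    congr 1
    abel
  have h2 : |‖s - Q‖ - ‖s' - Q‖| ≤ ‖s - s'‖ := by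
    refine (abs_norm_sub_norm_le _ _).trans (le_of_eq ?_)
    congr 1
    abel
  have h3 := norm_le_half (s - Q)
  have h4 := norm_le_half (s' - P)
  refine (abs_add_le _ _).trans ?_
  rw [abs_mul, abs_mul, abs_of_nonneg (norm_nonneg (s - Q)), abs_of_nonneg (norm_nonneg (s' - P))]
  have h5 := norm_nonneg (s - Q)
  have h6 := norm_nonneg (s' - P)
  have h7 := abs_nonneg (‖s - P‖ - ‖s' - P‖)
  have h8 := abs_nonneg (‖s - Q‖ - ‖s' - Q‖)
  have h9 := norm_nonneg (s - s')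
  nlinarith

theorem eq_of_sep_eq_zero {P Q s : UnitAddCircle} (h : sep P Q s = 0) : s = P ∨ s = Q := by
  unfold sep at h
  rcases mul_eq_zero.1 h with h1 | h1
  · left
    exact sub_eq_zero.1 (norm_eq_zero.1 h1)
  · right
    exact sub_eq_zero.1 (norm_eq_zero.1 h1)

/-- The main consequence of the coincidence. -/
theorem main_step {U : Ultrafilter ℕ+} {a b b' c : ℕ+} (hne : b ≠ b')
    (h : Coincide U a b b' c) {χ : ℕ → ℝ}
    (hχ : ∀ z, 0 < z → ∃ D, 0 < D ∧ ∀ w, D ∣ w → χ (z + w) = χ z)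
    (hχm : ∀ c z, 0 < c → 0 < z → χ (c * z) = χ c + χ z) {θ : ℝ}
    (hθ : ((χ b' - χ b - θ : ℝ) : UnitAddCircle) = 0) (hθ0 : ((θ : ℝ) : UnitAddCircle) ≠ 0) :
    ((χ c - χ b : ℝ) : UnitAddCircle) =
      ((θ * ((Real.log (b' : ℕ) - Real.log (a : ℕ)) / (Real.log (b' : ℕ) - Real.log (b : ℕ))) :
        ℝ) : UnitAddCircle) := by
  have hU := divisible_of_coincide hne h
  have ha0 : (0 : ℝ) < (a : ℕ) := by exact_mod_cast a.pos
  have hb0 : (0 : ℝ) < (b : ℕ) := by exact_mod_cast b.pos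
  have hb0' : (0 : ℝ) < (b' : ℕ) := by exact_mod_cast b'.pos
  have hlog : Real.log (b' : ℕ) - Real.log (b : ℕ) ≠ 0 := by
    rw [sub_ne_zero]
    intro hcon
    have := Real.log_injOn_pos (Set.mem_Ioi.2 hb0') (Set.mem_Ioi.2 hb0) hcon
    apply hne
    exact PNat.eq (by exact_mod_cast this.symm)
  set κ : ℝ := θ / (Real.log (b' : ℕ) - Real.log (b : ℕ)) with hκ
  set B : ℕ := 2 * (b * b') with hBdef
  have hB : 2 ≤ B := by
    have := Nat.mul_pos b.pos b'.pos
    omega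
  have hbB : (b : ℕ) ∣ B := Dvd.intro (2 * b') (by rw [hBdef]; ring)
  have hbB' : (b' : ℕ) ∣ B := Dvd.intro (2 * b) (by rw [hBdef]; ring)
  obtain ⟨χU, hχU⟩ := exists_limit (fun n : ℕ+ => ((χ n : ℝ) : UnitAddCircle)) U
  obtain ⟨lU, hlU⟩ := exists_limit (fun n : ℕ+ => ((κ * Real.log (n : ℕ) : ℝ) : UnitAddCircle)) U
  set P1 := χU + ((χ b : ℝ) : UnitAddCircle) - (((κ * Real.log (a : ℕ) : ℝ) : UnitAddCircle) + lU)
    with hP1
  set P2 := χU + ((χ c : ℝ) : UnitAddCircle) - (((κ * Real.log (b : ℕ) : ℝ) : UnitAddCircle) + lU)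
    with hP2
  set P1' := χU + ((χ b' : ℝ) : UnitAddCircle) -
    (((κ * Real.log (a : ℕ) : ℝ) : UnitAddCircle) + lU) with hP1'
  set P2' := χU + ((χ c : ℝ) : UnitAddCircle) -
    (((κ * Real.log (b' : ℕ) : ℝ) : UnitAddCircle) + lU) with hP2'
  set F := sep P1' P2' with hF
  have hF1 : ∀ s, |F s| ≤ 1 := fun s => by
    rw [abs_of_nonneg (sep_nonneg _ _ _)]
    exact (sep_le _ _ _).trans (by norm_num)
  have hF2 : ∀ s s', |F s - F s'| ≤ ‖s - s'‖ := sep_lipschitz _ _
  obtain ⟨Aa, hAa⟩ := exists_limit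
    (fun n : ℕ+ => ((Psi B χ κ F (a * n : ℕ) : ℝ) : UnitAddCircle)) U
  obtain ⟨Ab, hAb⟩ := exists_limit
    (fun n : ℕ+ => ((Psi B χ κ F (b * n : ℕ) : ℝ) : UnitAddCircle)) U
  obtain ⟨Ab', hAb'⟩ := exists_limit
    (fun n : ℕ+ => ((Psi B χ κ F (b' * n : ℕ) : ℝ) : UnitAddCircle)) U
  obtain ⟨Ac, hAc⟩ := exists_limit
    (fun n : ℕ+ => ((Psi B χ κ F (c * n : ℕ) : ℝ) : UnitAddCircle)) U
  -- the inner sums have the same limit
  have hAA : Ab = Ab' := by
    have h1 : Tendsto (fun n : ℕ+ => Psi B χ κ F (b * n : ℕ) - Psi B χ κ F (b' * n : ℕ)) U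
        (𝓝 0) := by
      rw [Metric.tendsto_nhds]
      intro ε hε
      obtain ⟨D, hD, hDw⟩ := scale (κ := κ) (χ := χ) hB hbB hbB' b.pos b'.pos hF1 hF2 (by
        intro z hz
        rw [hχm b z b.pos hz, hχm b' z b'.pos hz]
        have h2 : χ b + χ z - (χ b' + χ z) - κ * (Real.log (b : ℕ) - Real.log (b' : ℕ)) =
            -(χ b' - χ b - θ) := by
          have h3 : κ * (Real.log (b : ℕ) - Real.log (b' : ℕ)) = -θ := by
            rw [hκ]
            field_simp
            ring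
          rw [h3]
          ring
        rw [h2, AddCircle.coe_neg, hθ, neg_zero]) (half_pos hε)
      filter_upwards [hU D hD] with n hn
      rw [dist_zero_right, Real.norm_eq_abs]
      have := hDw n hn
      linarith
    have h2 := (continuous_coe_circle.tendsto _).comp h1
    rw [AddCircle.coe_zero] at h2
    have h3 := tendsto_nhds_unique (hAb.sub hAb') (h2.congr fun n => by
      simp only [Function.comp, AddCircle.coe_sub])
    exact sub_eq_zero.1 h3
  -- the two limits agree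
  have hlim1 := tendsto_three hU hB hχ hχm hF1 hF2 a b c hχU hlU hAa hAb hAc
  have hlim2 := tendsto_three hU hB hχ hχm hF1 hF2 a b' c hχU hlU hAa hAb' hAc
  have hco := h
  unfold Coincide at hco
  rw [hco] at hlim1
  have hlim := tendsto_nhds_unique hlim1 hlim2
  rw [← hP1, ← hP2, ← hP1', ← hP2', hAA] at hlim
  have hF1' : F P1' = 0 := by
    rw [hF]
    unfold sep
    rw [sub_self, norm_zero, zero_mul]
  have hF2' : F P2' = 0 := by
    rw [hF]
    unfold sep
    rw [sub_self, norm_zero, mul_zero]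
  rw [hF1', hF2'] at hlim
  have hsum : ((F P1 + F P2 : ℝ) : UnitAddCircle) = 0 := by
    rw [AddCircle.coe_add]
    have h5 : ((F P1 : ℝ) : UnitAddCircle) + ((F P2 : ℝ) : UnitAddCircle) =
        (Aa + ((F P1 : ℝ) : UnitAddCircle) + Ab' + ((F P2 : ℝ) : UnitAddCircle) + Ac) -
          (Aa + Ab' + Ac) := by abel
    rw [h5, hlim, AddCircle.coe_zero]
    abel
  rw [AddCircle.coe_eq_zero_iff] at hsum
  obtain ⟨k, hk⟩ := hsum
  have g1 := sep_nonneg P1' P2' P1
  have g2 := sep_nonneg P1' P2' P2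
  have g3 := sep_le P1' P2' P1
  have g4 := sep_le P1' P2' P2
  have hk0 : k = 0 := by
    rw [zsmul_eq_mul, mul_one] at hk
    have h6 : (k : ℝ) < 1 := by
      rw [hk]
      have : F P1 = sep P1' P2' P1 := rfl
      have : F P2 = sep P1' P2' P2 := rfl
      linarith
    have h7 : (-1 : ℝ) < k := by
      rw [hk]
      have : F P1 = sep P1' P2' P1 := rfl
      have : F P2 = sep P1' P2' P2 := rfl
      linarith
    have h8 : k < 1 := by exact_mod_cast h6
    have h9 : -1 < k := by exact_mod_cast h7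
    omega
  rw [hk0, zero_smul] at hk
  have hFP1 : F P1 = 0 := by
    have e1 : F P1 = sep P1' P2' P1 := rfl
    have e2 : F P2 = sep P1' P2' P2 := rfl
    linarith
  rcases eq_of_sep_eq_zero hFP1 with h10 | h10
  · exfalso
    apply hθ0
    rw [hP1, hP1'] at h10
    have h11 : ((χ b : ℝ) : UnitAddCircle) = ((χ b' : ℝ) : UnitAddCircle) := by
      have := sub_left_injective h10
      exact add_right_injective _ this
    have h12 : ((θ : ℝ) : UnitAddCircle) = ((χ b' : ℝ) : UnitAddCircle) -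
        ((χ b : ℝ) : UnitAddCircle) - ((χ b' - χ b - θ : ℝ) : UnitAddCircle) := by
      rw [AddCircle.coe_sub, AddCircle.coe_sub]
      abel
    rw [h12, hθ, h11]
    simp
  · rw [hP1, hP2'] at h10
    have h13 : θ * ((Real.log (b' : ℕ) - Real.log (a : ℕ)) /
        (Real.log (b' : ℕ) - Real.log (b : ℕ))) = κ * Real.log (b' : ℕ) -
          κ * Real.log (a : ℕ) := by
      rw [hκ]
      ring
    rw [h13, AddCircle.coe_sub, AddCircle.coe_sub]
    have h14 : ((χ c : ℝ) : UnitAddCircle) = (χU + ((χ c : ℝ) : UnitAddCircle) -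
      (((κ * Real.log (b' : ℕ) : ℝ) : UnitAddCircle) + lU)) - χU +
      (((κ * Real.log (b' : ℕ) : ℝ) : UnitAddCircle) + lU) := by abel
    rw [h14, ← h10]
    abel

/-- The labels used: a combination of two `p`-adic valuations. -/
noncomputable def lab (p p0 : ℕ) (κ1 κ2 : ℝ) (z : ℕ) : ℝ :=
  κ1 * padicValNat p z + κ2 * padicValNat p0 z

theorem padicValNat_add_eq {p : ℕ} (hp : p.Prime) {z w : ℕ} (hz : 0 < z)
    (hw : p ^ (padicValNat p z + 1) ∣ w) : padicValNat p (z + w) = padicValNat p z := by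
  have : Fact p.Prime := ⟨hp⟩
  apply le_antisymm
  · by_contra hcon
    push Not at hcon
    have h1 : p ^ (padicValNat p z + 1) ∣ z + w :=
      (padicValNat_dvd_iff_le (by omega)).2 hcon
    have h2 := (Nat.dvd_add_left hw).1 h1
    have h3 := (padicValNat_dvd_iff_le hz.ne').1 h2
    omega
  · apply (padicValNat_dvd_iff_le (by omega)).1
    exact Dvd.dvd.add pow_padicValNat_dvd ((pow_dvd_pow p (Nat.le_succ _)).trans hw)

theorem lab_local {p p0 : ℕ} (hp : p.Prime) (hp0 : p0.Prime) (κ1 κ2 : ℝ) :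
    ∀ z, 0 < z → ∃ D, 0 < D ∧ ∀ w, D ∣ w → lab p p0 κ1 κ2 (z + w) = lab p p0 κ1 κ2 z := by
  intro z hz
  refine ⟨p ^ (padicValNat p z + 1) * p0 ^ (padicValNat p0 z + 1),
    Nat.mul_pos (Nat.pow_pos hp.pos) (Nat.pow_pos hp0.pos), fun w hw => ?_⟩
  unfold lab
  rw [padicValNat_add_eq hp hz ((Dvd.intro _ rfl).trans hw),
    padicValNat_add_eq hp0 hz ((Dvd.intro_left _ rfl).trans hw)]

theorem lab_mul {p p0 : ℕ} (hp : p.Prime) (hp0 : p0.Prime) (κ1 κ2 : ℝ) :
    ∀ c z, 0 < c → 0 < z → lab p p0 κ1 κ2 (c * z) = lab p p0 κ1 κ2 c + lab p p0 κ1 κ2 z := by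
  intro c z hc hz
  have : Fact p.Prime := ⟨hp⟩
  have : Fact p0.Prime := ⟨hp0⟩
  unfold lab
  rw [padicValNat.mul hc.ne' hz.ne', padicValNat.mul hc.ne' hz.ne']
  push_cast
  ring

theorem coe_eq_coe_iff {x y : ℝ} : (x : UnitAddCircle) = (y : UnitAddCircle) ↔
    ∃ k : ℤ, x - y = k := by
  rw [← sub_eq_zero, ← AddCircle.coe_sub, AddCircle.coe_eq_zero_iff]
  constructor
  · rintro ⟨k, hk⟩
    exact ⟨k, by rw [← hk]; simp⟩
  · rintro ⟨k, hk⟩
    exact ⟨k, by rw [hk]; simp⟩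

/-- All valuations of `c / b` are determined by those of `b' / b`. -/
theorem valuations {U : Ultrafilter ℕ+} {a b b' c : ℕ+} (hne : b ≠ b')
    (h : Coincide U a b b' c) : ∃ T : ℤ,
      Real.log (b' : ℕ) - Real.log (a : ℕ) = T * (Real.log (b' : ℕ) - Real.log (b : ℕ)) ∧
      ∀ p : ℕ, p.Prime → (padicValNat p c : ℤ) - padicValNat p b =
        T * ((padicValNat p b' : ℤ) - padicValNat p b) := by
  have hb0 : (0 : ℝ) < (b : ℕ) := by exact_mod_cast b.pos
  have hb0' : (0 : ℝ) < (b' : ℕ) := by exact_mod_cast b'.pos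
  have hlog : Real.log (b' : ℕ) - Real.log (b : ℕ) ≠ 0 := by
    rw [sub_ne_zero]
    intro hcon
    have := Real.log_injOn_pos (Set.mem_Ioi.2 hb0') (Set.mem_Ioi.2 hb0) hcon
    apply hne
    exact PNat.eq (by exact_mod_cast this.symm)
  -- a prime with different valuations
  obtain ⟨p, hp, hpne⟩ : ∃ p : ℕ, p.Prime ∧ padicValNat p b ≠ padicValNat p b' := by
    by_contra hcon
    push Not at hcon
    apply hne
    exact PNat.eq ((Nat.eq_iff_prime_padicValNat_eq _ _ b.ne_zero b'.ne_zero).2 hcon)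
  set s : ℝ := (padicValNat p b' : ℝ) - padicValNat p b with hs
  have hs0 : s ≠ 0 := by
    rw [hs, sub_ne_zero]
    intro hcon
    apply hpne
    exact_mod_cast hcon.symm
  set R : ℝ := (Real.log (b' : ℕ) - Real.log (a : ℕ)) / (Real.log (b' : ℕ) - Real.log (b : ℕ))
    with hR
  have step := fun (p0 : ℕ) (hp0 : p0.Prime) (κ2 θ : ℝ) =>
    main_step hne h (lab_local hp hp0 (1 / (2 * s)) κ2) (lab_mul hp hp0 (1 / (2 * s)) κ2) (θ := θ)
  -- first `κ2 = 0`
  have hlab0 : lab p p (1 / (2 * s)) 0 b' - lab p p (1 / (2 * s)) 0 b = 1 / 2 := by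
    unfold lab
    have : 1 / (2 * s) * (padicValNat p b' : ℝ) + 0 * (padicValNat p b' : ℝ) -
        (1 / (2 * s) * (padicValNat p b : ℝ) + 0 * (padicValNat p b : ℝ)) = 1 / (2 * s) * s := by
      rw [hs]; ring
    rw [this]
    field_simp
  have e1 := step p hp 0 (1 / 2) (by rw [hlab0, sub_self]; rfl) (by
    rw [← AddCircle.coe_zero, Ne, coe_eq_coe_iff]
    rintro ⟨k, hk⟩
    have h1 : (1 : ℝ) = 2 * k := by linarith
    have h2 : (1 : ℤ) = 2 * k := by exact_mod_cast h1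
    omega)
  have e2 := step p hp 0 (1 / 2 + 1) (by
      rw [hlab0, ← AddCircle.coe_zero, coe_eq_coe_iff]
      exact ⟨-1, by norm_num⟩) (by
    rw [← AddCircle.coe_zero, Ne, coe_eq_coe_iff]
    rintro ⟨k, hk⟩
    have h1 : (3 : ℝ) = 2 * k := by linarith
    have h2 : (3 : ℤ) = 2 * k := by exact_mod_cast h1
    omega)
  obtain ⟨T, hT⟩ : ∃ T : ℤ, R = T := by
    have e3 := e2.symm.trans e1
    rw [coe_eq_coe_iff] at e3
    obtain ⟨k, hk⟩ := e3
    exact ⟨k, by rw [← hk]; ring⟩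
  refine ⟨T, ?_, ?_⟩
  · rw [← hT, hR, div_mul_cancel₀ _ hlog]
  · intro p0 hp0
    set s0 : ℤ := (padicValNat p0 b' : ℤ) - padicValNat p0 b with hs0'
    set w : ℤ := (padicValNat p0 c : ℤ) - padicValNat p0 b - T * s0 with hw
    set N : ℕ := 2 * s0.natAbs + w.natAbs + 2 with hN
    have hNpos : (0 : ℝ) < N := by
      have : 0 < N := by omega
      exact_mod_cast this
    have hlabN : lab p p0 (1 / (2 * s)) (1 / N) b' - lab p p0 (1 / (2 * s)) (1 / N) b =
        1 / 2 + s0 / N := by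
      unfold lab
      have h1 : 1 / (2 * s) * (padicValNat p b' : ℝ) + 1 / N * (padicValNat p0 b' : ℝ) -
          (1 / (2 * s) * (padicValNat p b : ℝ) + 1 / N * (padicValNat p0 b : ℝ)) =
          1 / (2 * s) * s + (s0 : ℝ) / N := by
        rw [hs, hs0', Int.cast_sub, Int.cast_natCast, Int.cast_natCast]; ring
      rw [h1]
      field_simp
    have hsN : |(s0 : ℝ) / N| < 1 / 2 := by
      rw [abs_div, abs_of_pos hNpos, div_lt_div_iff₀ hNpos (by norm_num)]
      have h1 : |s0| * 2 < 1 * (N : ℤ) := by rw [Int.abs_eq_natAbs]; omega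
      exact_mod_cast h1
    rw [abs_lt] at hsN
    have e4 := step p0 hp0 (1 / N) (1 / 2 + s0 / N) (by rw [hlabN, sub_self]; rfl) (by
      rw [← AddCircle.coe_zero, Ne, coe_eq_coe_iff]
      rintro ⟨k, hk⟩
      have h1 : (0 : ℝ) < k := by rw [← hk]; linarith
      have h2 : (k : ℝ) < 1 := by rw [← hk]; linarith
      have h3 : 0 < k := by exact_mod_cast h1
      have h4 : k < 1 := by exact_mod_cast h2
      omega)
    rw [coe_eq_coe_iff] at e4 e1
    obtain ⟨k1, hk1⟩ := e1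
    obtain ⟨k2, hk2⟩ := e4
    rw [← hR, hT] at hk1 hk2
    unfold lab at hk1 hk2
    have h5 : (w : ℝ) / N = k2 - k1 := by
      rw [← hk1, ← hk2, hw, Int.cast_sub, Int.cast_sub, Int.cast_mul, Int.cast_natCast,
        Int.cast_natCast]
      ring
    have h6 : |(w : ℝ) / N| < 1 := by
      rw [abs_div, abs_of_pos hNpos, div_lt_one hNpos]
      have h1 : |w| < (N : ℤ) := by rw [Int.abs_eq_natAbs]; omega
      exact_mod_cast h1
    rw [h5, abs_lt] at h6
    have h7 : k2 - k1 = 0 := by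
      have h8 : -1 < k2 - k1 := by exact_mod_cast h6.1
      have h9 : k2 - k1 < 1 := by exact_mod_cast h6.2
      omega
    have h10 : (w : ℝ) / N = 0 := by
      rw [h5]
      exact_mod_cast h7
    rw [div_eq_zero_iff] at h10
    rcases h10 with h10 | h10
    · have : w = 0 := by exact_mod_cast h10
      omega
    · exact absurd h10 hNpos.ne'

theorem necessity {U : Ultrafilter ℕ+} {a b b' c : ℕ+} (hne : b ≠ b')
    (h : Coincide U a b b' c) : ∃ t : ℤ,
      ((b : ℕ) : ℚ) / (a : ℕ) = (((b' : ℕ) : ℚ) / (b : ℕ)) ^ t ∧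
      ((c : ℕ) : ℚ) / (b' : ℕ) = (((b' : ℕ) : ℚ) / (b : ℕ)) ^ t := by
  obtain ⟨T, hT1, hT2⟩ := valuations hne h
  have ha0 : (0 : ℝ) < (a : ℕ) := by exact_mod_cast a.pos
  have hb0 : (0 : ℝ) < (b : ℕ) := by exact_mod_cast b.pos
  have hb0' : (0 : ℝ) < (b' : ℕ) := by exact_mod_cast b'.pos
  have qa0 : (0 : ℚ) < (a : ℕ) := by exact_mod_cast a.pos
  have qb0 : (0 : ℚ) < (b : ℕ) := by exact_mod_cast b.pos
  have qb0' : (0 : ℚ) < (b' : ℕ) := by exact_mod_cast b'.pos
  have qc0 : (0 : ℚ) < (c : ℕ) := by exact_mod_cast c.pos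
  have h1 : ((b' : ℕ) : ℚ) / (a : ℕ) = (((b' : ℕ) : ℚ) / (b : ℕ)) ^ T := by
    have h2 : ((b' : ℕ) : ℝ) / (a : ℕ) = (((b' : ℕ) : ℝ) / (b : ℕ)) ^ T := by
      apply Real.log_injOn_pos (Set.mem_Ioi.2 (by positivity)) (Set.mem_Ioi.2 (by positivity))
      rw [Real.log_zpow, Real.log_div hb0'.ne' ha0.ne', Real.log_div hb0'.ne' hb0.ne']
      exact hT1
    apply Rat.cast_injective (α := ℝ)
    push_cast
    exact h2
  have h3 : ((c : ℕ) : ℚ) / (b : ℕ) = (((b' : ℕ) : ℚ) / (b : ℕ)) ^ T := by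
    obtain ⟨k, hk⟩ := Int.eq_nat_or_neg T
    rcases hk with hk | hk
    · -- nonnegative exponent
      have h4 : (c : ℕ) * (b : ℕ) ^ k = (b : ℕ) * (b' : ℕ) ^ k := by
        rw [Nat.eq_iff_prime_padicValNat_eq _ _ (by positivity) (by positivity)]
        intro p hp
        have : Fact p.Prime := ⟨hp⟩
        rw [padicValNat.mul c.ne_zero (by positivity), padicValNat.mul b.ne_zero (by positivity),
          padicValNat.pow, padicValNat.pow]
        have := hT2 p hp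
        rw [hk] at this
        generalize padicValNat p (c : ℕ) = vc at this ⊢
        generalize padicValNat p (b : ℕ) = vb at this ⊢
        generalize padicValNat p (b' : ℕ) = vb' at this ⊢
        zify
        linarith
      rw [hk, zpow_natCast, div_pow, div_eq_div_iff qb0.ne' (by positivity)]
      have h5 : ((c : ℕ) : ℚ) * ((b : ℕ) : ℚ) ^ k = ((b : ℕ) : ℚ) * ((b' : ℕ) : ℚ) ^ k := by
        exact_mod_cast h4
      rw [h5]
      ring
    · have h4 : (c : ℕ) * (b' : ℕ) ^ k = (b : ℕ) * (b : ℕ) ^ k := by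
        rw [Nat.eq_iff_prime_padicValNat_eq _ _ (by positivity) (by positivity)]
        intro p hp
        have : Fact p.Prime := ⟨hp⟩
        rw [padicValNat.mul c.ne_zero (by positivity), padicValNat.mul b.ne_zero (by positivity),
          padicValNat.pow, padicValNat.pow]
        have := hT2 p hp
        rw [hk] at this
        generalize padicValNat p (c : ℕ) = vc at this ⊢
        generalize padicValNat p (b : ℕ) = vb at this ⊢
        generalize padicValNat p (b' : ℕ) = vb' at this ⊢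
        zify
        linarith
      rw [hk, zpow_neg, zpow_natCast, ← inv_pow, inv_div, div_pow,
        div_eq_div_iff qb0.ne' (by positivity)]
      have h5 : ((c : ℕ) : ℚ) * ((b' : ℕ) : ℚ) ^ k = ((b : ℕ) : ℚ) * ((b : ℕ) : ℚ) ^ k := by
        exact_mod_cast h4
      rw [h5]
      ring
  have hq0 : ((b' : ℕ) : ℚ) / (b : ℕ) ≠ 0 := (div_pos qb0' qb0).ne'
  refine ⟨T - 1, ?_, ?_⟩
  · rw [zpow_sub_one₀ hq0, ← h1]
    field_simp
  · rw [zpow_sub_one₀ hq0, ← h3]
    field_simp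

end Pool.Agent.H78.MidCoef
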