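import Pool.Agent.H78.MidCoef.Necessity

/-!
# Construction of ultrafilters with `aU ⊕ bU ⊕ cU = aU ⊕ b'U ⊕ cU`
-/

namespace Pool.Agent.H78.MidCoef

open Filter Topology

theorem oplus_assoc (U V W : Ultrafilter ℕ+) :
    oplus (oplus U V) W = oplus U (oplus V W) := by
  apply Ultrafilter.ext
  intro A
  rw [mem_oplus, mem_oplus, mem_oplus]
  simp only [mem_oplus, Set.mem_ofPred_eq, add_assoc]

theorem smul_oplus (a : ℕ+) (U V : Ultrafilter ℕ+) :
    smul a (oplus U V) = oplus (smul a U) (smul a V) := by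
  apply Ultrafilter.ext
  intro A
  rw [mem_smul, mem_oplus, mem_oplus, mem_smul]
  simp only [mem_smul, Set.mem_ofPred_eq, mul_add]

theorem smul_smul (a b : ℕ+) (U : Ultrafilter ℕ+) : smul a (smul b U) = smul (a * b) U := by
  apply Ultrafilter.ext
  intro A
  rw [mem_smul, mem_smul, mem_smul]
  simp only [Set.mem_ofPred_eq, mul_assoc]

attribute [local instance] Ultrafilter.add Ultrafilter.addSemigroup in
theorem exists_idempotent : ∃ W : Ultrafilter ℕ+, oplus W W = W := by
  obtain ⟨W, hW⟩ := exists_idempotent_of_compact_t2_of_continuous_add_left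
    (M := Ultrafilter ℕ+) Ultrafilter.continuous_add_left
  refine ⟨W, ?_⟩
  apply Ultrafilter.ext
  intro A
  conv_rhs => rw [← hW]
  exact Iff.rfl

/-- The sum `h(i)W ⊕ h(i+1)W ⊕ ... ⊕ h(i+k)W`. -/
noncomputable def seg (W : Ultrafilter ℕ+) (h : ℕ → ℕ+) (i : ℕ) : ℕ → Ultrafilter ℕ+
  | 0 => smul (h i) W
  | k + 1 => oplus (seg W h i k) (smul (h (i + k + 1)) W)

theorem seg_concat (W : Ultrafilter ℕ+) (h : ℕ → ℕ+) (i k m : ℕ) :
    oplus (seg W h i k) (seg W h (i + k + 1) m) = seg W h i (k + m + 1) := by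
  induction m with
  | zero => rfl
  | succ m ih =>
    have e1 : seg W h (i + k + 1) (m + 1) =
        oplus (seg W h (i + k + 1) m) (smul (h (i + k + 1 + m + 1)) W) := rfl
    have e2 : seg W h i (k + (m + 1) + 1) =
        oplus (seg W h i (k + m + 1)) (smul (h (i + (k + m + 1) + 1)) W) := rfl
    rw [e1, e2, ← oplus_assoc, ih]
    congr 3
    omega

theorem seg_merge {W : Ultrafilter ℕ+} (hW : oplus W W = W) (h : ℕ → ℕ+) (i k m : ℕ) :
    oplus (seg W h i k) (seg W h (i + k) m) = seg W h i (k + m) := by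
  induction m with
  | zero =>
    have hx : ∀ x : ℕ+, oplus (smul x W) (smul x W) = smul x W := by
      intro x
      rw [← smul_oplus, hW]
    show oplus (seg W h i k) (smul (h (i + k)) W) = seg W h i k
    cases k with
    | zero => exact hx _
    | succ k =>
      show oplus (oplus (seg W h i k) (smul (h (i + k + 1)) W)) (smul (h (i + (k + 1))) W) = _
      rw [oplus_assoc]
      have : i + (k + 1) = i + k + 1 := by omega
      rw [this, hx]
      rfl
  | succ m ih =>
    have e1 : seg W h (i + k) (m + 1) =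
        oplus (seg W h (i + k) m) (smul (h (i + k + m + 1)) W) := rfl
    have e2 : seg W h i (k + (m + 1)) =
        oplus (seg W h i (k + m)) (smul (h (i + (k + m) + 1)) W) := rfl
    rw [e1, e2, ← oplus_assoc, ih]
    congr 3
    omega

theorem smul_seg (W : Ultrafilter ℕ+) {h h' : ℕ → ℕ+} (a : ℕ+) (i i' : ℕ) : ∀ k : ℕ,
    (∀ j, j ≤ k → a * h (i + j) = h' (i' + j)) → smul a (seg W h i k) = seg W h' i' k
  | 0, hj => by
    show smul a (smul (h i) W) = smul (h' i') W
    rw [smul_smul]
    congr 1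
    exact hj 0 le_rfl
  | k + 1, hj => by
    show smul a (oplus (seg W h i k) (smul (h (i + k + 1)) W)) =
      oplus (seg W h' i' k) (smul (h' (i' + k + 1)) W)
    rw [smul_oplus, smul_seg W a i i' k fun j hjk => hj j (by omega), smul_smul]
    congr 2
    exact hj (k + 1) le_rfl

theorem coincide_of_nat {a b b' c : ℕ+} {t : ℕ} (h1 : b ^ (t + 1) = a * b' ^ t)
    (h2 : c * b ^ t = b' ^ (t + 1)) : ∃ U : Ultrafilter ℕ+, Coincide U a b b' c := by
  obtain ⟨W, hW⟩ := exists_idempotent
  set f : ℕ → ℕ+ := fun i => b ^ (t - i) * b' ^ i with hf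
  set h : ℕ → ℕ+ := fun l => if l ≤ t then a * (b ^ (t - l) * b' ^ l) else
    if l ≤ 2 * t + 1 then b ^ (2 * t + 1 - l) * b' ^ (l - t) else
      c * (b ^ (3 * t + 1 - l) * b' ^ (l - (2 * t + 1))) with hh
  have hmid : ∀ l, t ≤ l → l ≤ 2 * t + 1 → h l = b ^ (2 * t + 1 - l) * b' ^ (l - t) := by
    intro l hl hl'
    rcases Nat.lt_or_ge t l with h3 | h3
    · rw [hh]
      simp only
      rw [if_neg (by omega), if_pos hl']
    · have : l = t := by omega
      subst this
      rw [hh]
      simp only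
      rw [if_pos le_rfl]
      have e1 : 2 * l + 1 - l = l + 1 := by omega
      rw [e1, Nat.sub_self, pow_zero, pow_zero, one_mul, mul_one, h1]
  have ha : smul a (seg W f 0 t) = seg W h 0 t := by
    apply smul_seg
    intro j hj
    rw [hh]
    simp only [hf]
    rw [if_pos (by omega)]
  have hb : smul b (seg W f 0 t) = seg W h t t := by
    apply smul_seg
    intro j hj
    rw [hmid (t + j) (by omega) (by omega)]
    simp only [hf, zero_add]
    rw [← mul_assoc, ← pow_succ']
    congr 2 <;> omega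
  have hb' : smul b' (seg W f 0 t) = seg W h (t + 1) t := by
    apply smul_seg
    intro j hj
    rw [hmid (t + 1 + j) (by omega) (by omega)]
    simp only [hf, zero_add]
    rw [mul_left_comm, ← pow_succ']
    congr 2 <;> omega
  have hc : smul c (seg W f 0 t) = seg W h (2 * t + 1) t := by
    apply smul_seg
    intro j hj
    rcases Nat.eq_zero_or_pos j with h3 | h3
    · subst h3
      rw [hmid (2 * t + 1 + 0) (by omega) (by omega)]
      simp only [hf, add_zero, Nat.sub_zero, pow_zero, mul_one, Nat.sub_self, one_mul]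
      rw [h2]
      congr 1
      omega
    · rw [hh]
      simp only [hf]
      rw [if_neg (by omega), if_neg (by omega)]
      congr 3 <;> omega
  refine ⟨seg W f 0 t, ?_⟩
  unfold Coincide
  rw [ha, hb, hb', hc]
  have m1 := seg_merge hW h 0 t t
  have m2 := seg_concat W h 0 (t + t) t
  have m3 := seg_concat W h 0 t t
  have m4 := seg_merge hW h 0 (t + t + 1) t
  rw [zero_add] at m1 m2 m3 m4
  have e : 2 * t + 1 = t + t + 1 := by omega
  rw [e, m1, m2, m3, m4]
  congr 1
  omega

theorem coincide_symm {U : Ultrafilter ℕ+} {a b b' c : ℕ+} (h : Coincide U a b b' c) :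
    Coincide U a b' b c :=
  Eq.symm h

theorem sufficiency {a b b' c : ℕ+} {t : ℤ}
    (h1 : ((b : ℕ) : ℚ) / (a : ℕ) = (((b' : ℕ) : ℚ) / (b : ℕ)) ^ t)
    (h2 : ((c : ℕ) : ℚ) / (b' : ℕ) = (((b' : ℕ) : ℚ) / (b : ℕ)) ^ t) :
    ∃ U : Ultrafilter ℕ+, Coincide U a b b' c := by
  have qa0 : (0 : ℚ) < (a : ℕ) := by exact_mod_cast a.pos
  have qb0 : (0 : ℚ) < (b : ℕ) := by exact_mod_cast b.pos
  have qb0' : (0 : ℚ) < (b' : ℕ) := by exact_mod_cast b'.pos
  have qc0 : (0 : ℚ) < (c : ℕ) := by exact_mod_cast c.pos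
  have hq0 : ((b' : ℕ) : ℚ) / (b : ℕ) ≠ 0 := (div_pos qb0' qb0).ne'
  rcases Int.le_total 0 t with ht | ht
  · obtain ⟨k, rfl⟩ := Int.eq_ofNat_of_zero_le ht
    rw [zpow_natCast, div_pow] at h1 h2
    rw [div_eq_div_iff qa0.ne' (by positivity)] at h1
    rw [div_eq_div_iff qb0'.ne' (by positivity)] at h2
    apply coincide_of_nat (t := k)
    · apply PNat.eq
      have h3 : (b : ℕ) * (b : ℕ) ^ k = (b' : ℕ) ^ k * (a : ℕ) := by exact_mod_cast h1
      push_cast
      rw [pow_succ']
      linarith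
    · apply PNat.eq
      have h3 : (c : ℕ) * (b : ℕ) ^ k = (b' : ℕ) ^ k * (b' : ℕ) := by exact_mod_cast h2
      push_cast
      rw [pow_succ]
      linarith
  · rcases ht.lt_or_eq with ht | ht
    · -- exchange the roles of `b` and `b'`
      obtain ⟨k, hk⟩ := Int.eq_ofNat_of_zero_le (by omega : 0 ≤ -t - 1)
      have ht' : t = -(k : ℤ) - 1 := by omega
      rw [ht', zpow_sub_one₀ hq0, zpow_neg, zpow_natCast, ← inv_pow, inv_div, div_pow] at h1 h2
      have h3 : ∃ U : Ultrafilter ℕ+, Coincide U a b' b c := by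
        apply coincide_of_nat (t := k)
        · apply PNat.eq
          have h4 : ((b' : ℕ) : ℚ) ^ (k + 1) = (a : ℕ) * ((b : ℕ) : ℚ) ^ k := by
            field_simp at h1
            rw [pow_succ]
            linarith
          push_cast
          exact_mod_cast h4
        · apply PNat.eq
          have h4 : ((c : ℕ) : ℚ) * ((b' : ℕ) : ℚ) ^ k = ((b : ℕ) : ℚ) ^ (k + 1) := by
            field_simp at h2
            rw [pow_succ]
            linarith
          push_cast
          exact_mod_cast h4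
      obtain ⟨U, hU⟩ := h3
      exact ⟨U, coincide_symm hU⟩
    · subst ht
      rw [zpow_zero, div_eq_one_iff_eq qa0.ne'] at h1
      rw [zpow_zero, div_eq_one_iff_eq qb0'.ne'] at h2
      apply coincide_of_nat (t := 0)
      · apply PNat.eq
        have : (b : ℕ) = (a : ℕ) := by exact_mod_cast h1
        simpa using this
      · apply PNat.eq
        have : (c : ℕ) = (b' : ℕ) := by exact_mod_cast h2
        simpa using this

end Pool.Agent.H78.MidCoef
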